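import Mathlib
import Pool.Agent.H17.Shrink2

namespace Pool.Agent.Results.MP_9d6213_co.NoHelly

open Set Complex Pool.Agent.H17.Shrink

/-- the subfamily of `p` indexed by `I` admits a continuous shrinking onto that of `q` -/
def Shrinks {n d : ℕ} (p q : Fin n → EuclideanSpace ℝ (Fin d)) (I : Finset (Fin n)) : Prop :=
  ∃ x : Fin n → ℝ → EuclideanSpace ℝ (Fin d),
    (∀ i ∈ I, ContinuousOn (x i) (Icc 0 1) ∧ x i 0 = p i ∧ x i 1 = q i) ∧
    ∀ i ∈ I, ∀ j ∈ I, AntitoneOn (fun t => ‖x i t - x j t‖) (Icc 0 1)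

lemma obstruction (n : ℕ) (X : ℕ → ℝ → ℂ) (hc : ∀ j, ContinuousOn (X j) (Icc 0 1))
    (hn : 0 < n) (h0 : X n = X 0) (h1 : X (n + 1) = X 1)
    (ha : ∀ i j, AntitoneOn (fun t => ‖X i t - X j t‖) (Icc 0 1))
    (e0 : ∀ j, ‖X (j + 1) 0 - X j 0‖ < 2) (e1 : ∀ j, 1 ≤ ‖X (j + 1) 1 - X j 1‖)
    (e2 : ∀ j, 1 ≤ ‖X (j + 2) 1 - X j 1‖)
    (a0 : ∀ j, ((X (j + 2) 0 - X (j + 1) 0) / (X (j + 1) 0 - X j 0)).arg ≤ Real.pi / 2)
    (a1 : ∀ j, 2 * Real.pi / 3 ≤ ((X (j + 2) 1 - X (j + 1) 1) / (X (j + 1) 1 - X j 1)).arg) :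
    False := by
  have z0 : (0 : ℝ) ∈ Icc (0 : ℝ) 1 := ⟨le_rfl, zero_le_one⟩
  have z1 : (1 : ℝ) ∈ Icc (0 : ℝ) 1 := ⟨zero_le_one, le_rfl⟩
  have up : ∀ j, ∀ t ∈ Icc (0 : ℝ) 1, ‖X (j + 1) t - X j t‖ < 2 := fun j t ht =>
    (ha _ _ z0 ht ht.1).trans_lt (e0 j)
  have lo : ∀ j, ∀ t ∈ Icc (0 : ℝ) 1, 1 ≤ ‖X (j + 1) t - X j t‖ := fun j t ht =>
    (e1 j).trans (ha _ _ ht z1 ht.2)
  have lo2 : ∀ j, ∀ t ∈ Icc (0 : ℝ) 1, 1 ≤ ‖X (j + 2) t - X j t‖ := fun j t ht =>
    (e2 j).trans (ha _ _ ht z1 ht.2)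
  have ne : ∀ j, ∀ t ∈ Icc (0 : ℝ) 1, X (j + 1) t - X j t ≠ 0 := fun j t ht h => by
    have := lo j t ht
    rw [h, norm_zero] at this
    linarith
  let z : ℕ → ℝ → ℂ := fun j t => (X (j + 2) t - X (j + 1) t) / (X (j + 1) t - X j t)
  have slit : ∀ j, ∀ t ∈ Icc (0 : ℝ) 1, z j t ∈ slitPlane := fun j t ht => by
    by_contra hs
    rw [mem_slitPlane_iff, not_or, not_lt, not_not] at hs
    have e : X (j + 2) t - X (j + 1) t = ((z j t).re : ℂ) * (X (j + 1) t - X j t) := by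
      have : ((z j t).re : ℂ) = z j t := Complex.ext (by simp) (by simp [hs.2])
      rw [this, div_mul_cancel₀ _ (ne j t ht)]
    have e' : X (j + 2) t - X j t = ((1 + (z j t).re : ℝ) : ℂ) * (X (j + 1) t - X j t) := by
      push_cast; linear_combination e
    have b1 := lo (j + 1) t ht
    have b2 := up (j + 1) t ht
    have b3 := lo2 j t ht
    have b4 := lo j t ht
    have b5 := up j t ht
    rw [show j + 1 + 1 = j + 2 by ring, e, norm_mul, norm_real, Real.norm_eq_abs,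
      abs_of_nonpos hs.1] at b1 b2
    rw [e', norm_mul, norm_real, Real.norm_eq_abs] at b3
    rcases abs_cases (1 + (z j t).re) with h | h <;> rw [h.1] at b3 <;> nlinarith
  let G : ℝ → ℝ := fun t => ∑ j ∈ Finset.range n, (z j t).arg
  have Gc : ContinuousOn G (Icc 0 1) := continuousOn_finsetSum _ fun j _ t ht =>
    (continuousAt_arg (slit j t ht)).comp_continuousWithinAt
      (((hc _ t ht).sub (hc _ t ht)).div ((hc _ t ht).sub (hc _ t ht)) (ne j t ht))
  have Gi : ∀ t ∈ Icc (0 : ℝ) 1, ∃ k : ℤ, G t = k * (2 * Real.pi) := fun t ht => by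
    have p1 : ∏ j ∈ Finset.range n, z j t = 1 := by
      have := Finset.prod_range_div' (fun j => Units.mk0 _ (ne j t ht)) n
      have h2 : ∀ m, ∏ j ∈ Finset.range m, z j t = (X (m + 1) t - X m t) / (X 1 t - X 0 t) := by
        intro m
        induction m with
        | zero => simp [div_self (ne 0 t ht)]
        | succ m ih =>
          rw [Finset.prod_range_succ, ih]
          simp only [z]
          have := ne m t ht
          have := ne 0 t ht
          field_simp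
      rw [h2, h0, h1, div_self (ne 0 t ht)]
    have p2 : exp (∑ j ∈ Finset.range n, log (z j t)) = 1 := by
      rw [exp_sum, ← p1]
      exact Finset.prod_congr rfl fun j _ => exp_log (slitPlane_ne_zero (slit j t ht))
    obtain ⟨k, hk⟩ := exp_eq_one_iff.1 p2
    refine ⟨k, ?_⟩
    have := congrArg Complex.im hk
    rw [im_sum] at this
    simpa [log_im] using this
  have g0 : G 0 ≤ n * (Real.pi / 2) := by
    simpa using Finset.sum_le_card_nsmul (Finset.range n) (fun j => (z j 0).arg) _ fun j _ => a0 j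
  have g1 : n * (2 * Real.pi / 3) ≤ G 1 := by
    simpa using Finset.card_nsmul_le_sum (Finset.range n) (fun j => (z j 1).arg) _ fun j _ => a1 j
  obtain ⟨k0, hk0⟩ := Gi 0 z0
  obtain ⟨k1, hk1⟩ := Gi 1 z1
  have hn' : (0 : ℝ) < n := by exact_mod_cast hn
  have hπ := Real.pi_pos
  have lt : (k0 : ℝ) < k1 := by nlinarith [mul_pos hn' hπ]
  have lt' : (k0 : ℝ) + 1 ≤ k1 := by exact_mod_cast (show k0 < k1 by exact_mod_cast lt)
  obtain ⟨t, ht, e⟩ := intermediate_value_Icc zero_le_one Gc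
    (show G 0 + Real.pi ∈ Icc (G 0) (G 1) from ⟨by linarith, by nlinarith⟩)
  obtain ⟨k, hk⟩ := Gi t ht
  have : (2 * k : ℝ) = 2 * k0 + 1 := mul_right_cancel₀ hπ.ne' (by linarith)
  have : 2 * k = 2 * k0 + 1 := by exact_mod_cast this
  omega

lemma mod_succ (n j : ℕ) (hn : 0 < n) :
    ((j + 1) % n = j % n + 1 ∧ j % n + 1 < n) ∨ ((j + 1) % n = 0 ∧ j % n + 1 = n) := by
  have h := Nat.mod_lt j hn
  have e : (j + 1) % n = (j % n + 1) % n := by simp
  by_cases h1 : j % n + 1 < n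
  · left; exact ⟨by rw [e, Nat.mod_eq_of_lt h1], h1⟩
  · right; exact ⟨by rw [e, show j % n + 1 = n by omega, Nat.mod_self], by omega⟩

lemma tau_facts (j : ℕ) : tau (2 * (j + 2)) - tau (2 * (j + 1)) =
    om * (tau (2 * (j + 1)) - tau (2 * j)) ∧ 1 ≤ ‖tau (2 * (j + 1)) - tau (2 * j)‖ ∧
    1 ≤ ‖tau (2 * (j + 2)) - tau (2 * j)‖ := by
  have s3 : √3 ^ 2 = 3 := Real.sq_sqrt (by norm_num)
  have hom : om * om = -1 - om := by
    apply Complex.ext
    · simp [om_re, om_im]; nlinarith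
    · simp [om_re, om_im]; ring
  have n1 : ‖om‖ = 1 := norm_exp_ofReal_mul_I _
  have n2 : ‖-1 - om‖ = 1 := by rw [← hom, norm_mul, n1, one_mul]
  have n3 : ‖om + 1‖ = 1 := by rw [← norm_neg, ← n2]; congr 1; ring
  have : j % 3 = 0 ∨ j % 3 = 1 ∨ j % 3 = 2 := by omega
  unfold tau
  rcases this with h | h | h
  · rw [show 2 * (j + 2) % 3 = 1 by omega, show 2 * (j + 1) % 3 = 2 by omega,
      show 2 * j % 3 = 0 by omega]
    simp [hom, n1]
  · rw [show 2 * (j + 2) % 3 = 0 by omega, show 2 * (j + 1) % 3 = 1 by omega,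
      show 2 * j % 3 = 2 by omega]
    simp [n1, n2]
    linear_combination hom
  · rw [show 2 * (j + 2) % 3 = 2 by omega, show 2 * (j + 1) % 3 = 0 by omega,
      show 2 * j % 3 = 1 by omega]
    simp [n3]

theorem result (m : ℕ) : ∃ (n : ℕ) (p q : Fin n → EuclideanSpace ℝ (Fin 2)),
    (∀ I : Finset (Fin n), I.card ≤ m → Shrinks p q I) ∧ ¬ Shrinks p q Finset.univ := by
  classical
  obtain ⟨N, hN, h⟩ := sub_shr m
  let φ := Complex.orthonormalBasisOneI.repr
  have hn : 0 < 4 * (3 * N) := by omega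
  refine ⟨4 * (3 * N), fun i => φ (dP (3 * N : ℕ) (i : ℕ)), fun i => φ (tau (2 * i)), ?_, ?_⟩
  · intro I hI
    obtain ⟨x, xc, x0, x1, xa⟩ := h I (fun i => (i.1 : ℕ)) (by simpa using hI) (fun i => i.1.2)
    refine ⟨fun i t => if hi : i ∈ I then φ (x ⟨i, hi⟩ t) else 0, fun i hi => ?_,
      fun i hi j hj => ?_⟩
    · simp only [hi, dif_pos, x0, x1, and_true]
      exact (φ.continuous.comp (xc _)).continuousOn
    · simp only [hi, hj, dif_pos, ← map_sub, LinearIsometryEquiv.norm_map]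
      exact xa _ _
  · rintro ⟨x, hx, xa⟩
    let X : ℕ → ℝ → ℂ := fun j t => φ.symm (x ⟨j % (4 * (3 * N)), Nat.mod_lt _ hn⟩ t)
    have X0 : ∀ j, X j 0 = dP (3 * N : ℕ) (j % (4 * (3 * N)) : ℕ) := fun j => by
      simp only [X, (hx _ (Finset.mem_univ _)).2.1, LinearIsometryEquiv.symm_apply_apply]
    have X1 : ∀ j, X j 1 = tau (2 * j) := fun j => by
      simp only [X, (hx _ (Finset.mem_univ _)).2.2, LinearIsometryEquiv.symm_apply_apply]
      have : j % (4 * (3 * N)) % 3 = j % 3 := Nat.mod_mod_of_dvd _ ⟨4 * N, by ring⟩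
      unfold tau
      rw [show 2 * (j % (4 * (3 * N))) % 3 = 2 * j % 3 by omega]
    have edge : ∀ j, ∃ a b : ℤ, (a = 1 ∨ a = -1) ∧ (b = 1 ∨ b = -1) ∧
        X (j + 1) 0 - X j 0 = ⟨a, b⟩ ∧ ∃ c d : ℤ, 0 ≤ a * c + b * d ∧
        X (j + 2) 0 - X (j + 1) 0 = ⟨c, d⟩ := fun j => by
      have m1 := mod_succ _ j hn
      have m2 := mod_succ _ (j + 1) hn
      rw [X0, X0, X0, show j + 2 = j + 1 + 1 from rfl]
      generalize j % (4 * (3 * N)) = r0 at *
      generalize (j + 1) % (4 * (3 * N)) = r1 at *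
      generalize (j + 1 + 1) % (4 * (3 * N)) = r2 at *
      have k : (dX (3 * N : ℕ) r1 - dX (3 * N : ℕ) r0 = 1 ∨
          dX (3 * N : ℕ) r1 - dX (3 * N : ℕ) r0 = -1) ∧
          (dY (3 * N : ℕ) r1 - dY (3 * N : ℕ) r0 = 1 ∨
          dY (3 * N : ℕ) r1 - dY (3 * N : ℕ) r0 = -1) := by
        unfold dX dY
        split_ifs <;> omega
      refine ⟨_, _, k.1, k.2, Complex.ext (by simp [dP]) (by simp [dP]),
        dX (3 * N : ℕ) r2 - dX (3 * N : ℕ) r1, dY (3 * N : ℕ) r2 - dY (3 * N : ℕ) r1, ?_,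
        Complex.ext (by simp [dP]) (by simp [dP])⟩
      rcases k with ⟨k1 | k1, k2 | k2⟩ <;> rw [k1, k2] <;> unfold dX dY at * <;>
        split_ifs at * <;> omega
    refine obstruction (4 * (3 * N)) X
      (fun j => φ.symm.continuous.comp_continuousOn (hx _ (Finset.mem_univ _)).1) hn
      (by simp [X]) (by simp [X]) (fun i j => ?_) (fun j => ?_) (fun j => ?_) (fun j => ?_)
      (fun j => ?_) (fun j => ?_)
    · simp only [X, ← map_sub, LinearIsometryEquiv.norm_map]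
      exact xa _ (Finset.mem_univ _) _ (Finset.mem_univ _)
    · obtain ⟨a, b, ha, hb, e, -⟩ := edge j
      rw [e, ← sq_lt_sq₀ (norm_nonneg _) (by norm_num), Complex.sq_norm, normSq_mk]
      rcases ha with rfl | rfl <;> rcases hb with rfl | rfl <;> norm_num
    · rw [X1, X1]; exact (tau_facts j).2.1
    · rw [X1, X1]; exact (tau_facts j).2.2
    · obtain ⟨a, b, -, -, e, c, d, hcd, e'⟩ := edge j
      rw [e, e', arg_le_pi_div_two_iff]
      left
      rw [div_re, ← add_div]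
      refine div_nonneg ?_ (normSq_nonneg _)
      have : (0 : ℝ) ≤ a * c + b * d := by exact_mod_cast hcd
      simp only
      linarith
    · have := tau_facts j
      have h0 : tau (2 * (j + 1)) - tau (2 * j) ≠ 0 := fun h => by
        rw [h, norm_zero] at this; linarith [this.2.1]
      rw [X1, X1, X1, this.1, mul_div_cancel_right₀ _ h0, om, arg_exp_mul_I, toIocMod_eq_self _ |>.2]
      constructor <;> linarith [Real.pi_pos]

end Pool.Agent.Results.MP_9d6213_co.NoHelly
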